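import Pool.Agent.Helper37.OF.St2

/-!
# Project OF (MP_121524_al), module LFT: extension of homomorphisms
-/

set_option autoImplicit false

namespace Pool.Agent.Helper89.OF

open Pool.Agent.Helper37.OF Monoid Pool.Agent.Helper4.FS

universe u v w x

theorem hLFT : StLFT.{w, x} := by
  intro G _ I τ z T _ j t hex
  classical
  obtain ⟨δ, hδ⟩ := hex
  let ι : ∀ i : I, i ≠ z → G →* Sb G I {i | i ≠ z} := fun i hi =>
    MonoidHom.mk' (fun g => ⟨ofi i g, ofi_mem hi g⟩) (fun a b => Subtype.ext (ofi_mul i a b))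
  let c : ∀ _ : I, G →* T := fun i => if h : i = z then δ else j.comp (ι i h)
  refine ⟨CoprodI.lift c, ?_, ?_⟩
  · intro y
    let ρ : Fp G I →* Sb G I {i | i ≠ z} :=
      (ret G I {i | i ≠ z}).codRestrict _ (fun w => ret_mem _ w)
    have h : (j.comp ρ) y.1 = ((CoprodI.lift c).comp (ret G I {i | i ≠ z})) y.1 := by
      refine hom_ext' (j.comp ρ) ((CoprodI.lift c).comp (ret G I {i | i ≠ z})) (fun i g => ?_) y.1
      rw [MonoidHom.comp_apply, MonoidHom.comp_apply]
      by_cases hi : i ∈ {i | i ≠ z}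
      · rw [ret_of_mem hi]
        have e1 : ρ (ofi i g) = ι i hi g := Subtype.ext (ret_of_mem hi g)
        have e2 : CoprodI.lift c (ofi i g) = c i g := CoprodI.lift_of c _
        have e3 : c i = j.comp (ι i hi) := dif_neg hi
        rw [e1, e2, e3]
        rfl
      · rw [ret_of_notMem hi, map_one]
        have e1 : ρ (ofi i g) = 1 := Subtype.ext (ret_of_notMem hi g)
        rw [e1, map_one]
    have hy : ret G I {i | i ≠ z} y.1 = y.1 := mem_Sb.1 y.2
    have hρ : ρ y.1 = y := Subtype.ext hy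
    rw [MonoidHom.comp_apply, MonoidHom.comp_apply, hy, hρ] at h
    exact h.symm
  · have e2 : CoprodI.lift c (ofi z τ) = c z τ := CoprodI.lift_of c _
    have e3 : c z = δ := dif_pos rfl
    rw [e2, e3, hδ]

end Pool.Agent.Helper89.OF
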